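import Mathlib
import Pool.Agent.Helper90.BE.Refl

/-!
For an irrational simple polygon every measurable function on the phase space which is constant
along billiard trajectories and whose modulus of continuity in the direction variable in `L¹` is
`o(ε log (1/ε))` along a sequence `ε → 0` is almost everywhere constant.
-/

set_option linter.dupNamespace false

open MeasureTheory Filter Topology
open scoped Real ENNReal

noncomputable section

namespace Pool.Agent.Results.MP_a579f0_an.InvariantModulus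

/-- The circle of directions, with its Lebesgue measure of total mass `2 π`. -/
abbrev Dir := AddCircle (2 * π)

/-- The unit vector with direction `θ`. -/
def dir (θ : Dir) : ℂ := (AddCircle.toCircle θ : ℂ)

/-- A simple polygon with the vertices `v i`, `i : ZMod n`, in cyclic order: the sides
`[v i, v (i + 1)]` meet only as they must. Its interior `Om` is the bounded open connected set whose
frontier is the union of the sides. -/
structure SimplePolygon (n : ℕ) where
  /-- the vertices -/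
  v : ZMod n → ℂ
  /-- the interior -/
  Om : Set ℂ
  inj : Function.Injective v
  adj : ∀ i, segment ℝ (v i) (v (i + 1)) ∩ segment ℝ (v (i + 1)) (v (i + 1 + 1)) = {v (i + 1)}
  disj : ∀ i j, i ≠ j → j ≠ i + 1 → i ≠ j + 1 →
    segment ℝ (v i) (v (i + 1)) ∩ segment ℝ (v j) (v (j + 1)) = ∅
  isOpen : IsOpen Om
  conn : IsConnected Om
  bdd : Bornology.IsBounded Om
  fr : frontier Om = ⋃ i, segment ℝ (v i) (v (i + 1))

namespace SimplePolygon

variable {n : ℕ} (P : SimplePolygon n)

/-- The polygon is irrational: some angle between two of its sides is not a rational multiple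
of `π`. -/
def Irrational : Prop :=
  ∃ i j : ZMod n, ∀ q : ℚ,
    Complex.arg (P.v (i + 1) - P.v i) - Complex.arg (P.v (j + 1) - P.v j) ≠ q * π

/-- The action of the reflection in the side `[v i, v (i + 1)]` on directions. -/
def reflect (i : ZMod n) (θ : Dir) : Dir :=
  ((2 * Complex.arg (P.v (i + 1) - P.v i) : ℝ) : Dir) - θ

/-- `u` is constant along billiard trajectories: it is constant along free motion inside `Om`, and
it takes the same value before and after an elastic reflection at an interior point of a side. -/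
structure Invariant (u : ℂ × Dir → ℝ) : Prop where
  free : ∀ (x : ℂ) (θ : Dir) (t : ℝ), 0 ≤ t → (∀ s ∈ Set.Icc 0 t, x + s • dir θ ∈ P.Om) →
    u (x + t • dir θ, θ) = u (x, θ)
  bounce : ∀ (i : ZMod n) (z : ℂ) (θ : Dir) (s t : ℝ),
    z ∈ openSegment ℝ (P.v i) (P.v (i + 1)) → 0 < s → 0 < t →
    (∀ r ∈ Set.Ioc 0 s, z - r • dir θ ∈ P.Om) →
    (∀ r ∈ Set.Ioc 0 t, z + r • dir (P.reflect i θ) ∈ P.Om) →
    u (z + t • dir (P.reflect i θ), P.reflect i θ) = u (z - s • dir θ, θ)

/-- The modulus of continuity of `u` in the direction, in `L¹` of the phase space: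
the integral of `|u (x, θ + ε) - u (x, θ)|` over `Om × S¹`. -/
def modulus (u : ℂ × Dir → ℝ) (ε : ℝ) : ℝ≥0∞ :=
  ∫⁻ p in P.Om ×ˢ (Set.univ : Set Dir), ENNReal.ofReal |u (p.1, p.2 + ε) - u (p.1, p.2)|

end SimplePolygon

open SimplePolygon

private lemma vtx {n : ℕ} (P : SimplePolygon n) {i j : ZMod n} (hij : i ≠ j) {p : ℂ}
    (hi : p ∈ segment ℝ (P.v i) (P.v (i + 1))) (hj : p ∈ segment ℝ (P.v j) (P.v (j + 1))) :
    (j = i + 1 ∧ p = P.v j) ∨ (i = j + 1 ∧ p = P.v i) := by
  by_cases h1 : j = i + 1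
  · left
    refine ⟨h1, ?_⟩
    subst h1
    have h := P.adj i
    have h2 : p ∈ ({P.v (i + 1)} : Set ℂ) := by
      rw [← h]
      exact ⟨hi, hj⟩
    exact h2
  · by_cases h2 : i = j + 1
    · right
      refine ⟨h2, ?_⟩
      subst h2
      have h := P.adj j
      have h3 : p ∈ ({P.v (j + 1)} : Set ℂ) := by
        rw [← h]
        exact ⟨hj, hi⟩
      exact h3
    · exfalso
      have h3 := P.disj i j hij h1 h2
      have h4 : p ∈ (∅ : Set ℂ) := by
        rw [← h3]
        exact ⟨hi, hj⟩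
      exact h4

/-- The table of the polygon. -/
private def tab {n : ℕ} (hn : 3 ≤ n) (P : SimplePolygon n) : Helper90.BE.Tab (ZMod n) where
  a := P.v
  b i := P.v (i + 1)
  Om := P.Om
  ne i := by
    intro h
    have h1 := P.inj h
    have h2 : (1 : ZMod n) = 0 := by
      have := h1.symm
      rwa [add_eq_left] at this
    have h3 : ((1 : ℕ) : ZMod n) = 0 := by exact_mod_cast h2
    rw [ZMod.natCast_eq_zero_iff] at h3
    have := Nat.le_of_dvd one_pos h3
    omega
  cross i j hij := by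
    rintro p ⟨hi, hj⟩
    rcases vtx P hij hi hj with ⟨h1, h2⟩ | ⟨h1, h2⟩
    · refine ⟨Or.inr ?_, Or.inl h2⟩
      rw [h2, h1]
      rfl
    · refine ⟨Or.inl h2, Or.inr ?_⟩
      rw [h2, h1]
      rfl
  triple i j k hij hjk hik := by
    rw [Set.eq_empty_iff_forall_notMem]
    rintro p ⟨⟨hi, hj⟩, hk⟩
    rcases vtx P hij hi hj with ⟨-, h1⟩ | ⟨-, h1⟩ <;>
    rcases vtx P hjk hj hk with ⟨-, h2⟩ | ⟨-, h2⟩ <;>
    rcases vtx P hik hi hk with ⟨-, h3⟩ | ⟨-, h3⟩ <;>
    first
      | exact hij (P.inj (h1.symm.trans h2))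
      | exact hij (P.inj (h3.symm.trans h1))
      | exact hij (P.inj (h3.symm.trans h2))
      | exact hjk (P.inj (h1.symm.trans h2))
      | exact hjk (P.inj (h1.symm.trans h3))
      | exact hik (P.inj (h1.symm.trans h2))
  isOpen := P.isOpen
  bdd := P.bdd
  fr := P.fr

private lemma tab_sd {n : ℕ} (hn : 3 ≤ n) (P : SimplePolygon n) {i : ZMod n} {z : ℂ}
    (hz : z ∈ (tab hn P).sd i) : z ∈ openSegment ℝ (P.v i) (P.v (i + 1)) := by
  refine mem_openSegment_of_ne_left_right ?_ ?_ hz.1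
  · intro h
    exact hz.2 ⟨i, Or.inl h.symm⟩
  · intro h
    exact hz.2 ⟨i, Or.inr h.symm⟩

private lemma tab_inv {n : ℕ} (hn : 3 ≤ n) (P : SimplePolygon n) {u : ℂ × Dir → ℝ}
    (hu : P.Invariant u) : (tab hn P).Inv (fun x θ => u (x, θ)) where
  free x θ t ht h := hu.free x θ t ht (fun s hs => h s hs.1 hs.2)
  refl i z θ s t hz hs ht h1 h2 :=
    hu.bounce i z θ s t (tab_sd hn P hz) hs ht (fun r hr => h1 r hr.1 hr.2)
      (fun r hr => h2 r hr.1 hr.2)

private lemma irr_order {n : ℕ} {P : SimplePolygon n} {i j : ZMod n}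
    (h : ∀ q : ℚ, Complex.arg (P.v (j + 1) - P.v j) - Complex.arg (P.v (i + 1) - P.v i) ≠ q * π) :
    addOrderOf (((2 * Complex.arg (P.v (j + 1) - P.v j) : ℝ) : Dir) -
      ((2 * Complex.arg (P.v (i + 1) - P.v i) : ℝ) : Dir)) = 0 := by
  rw [addOrderOf_eq_zero_iff']
  intro m hm h0
  rw [← AddCircle.coe_sub, ← AddCircle.coe_nsmul, AddCircle.coe_eq_zero_iff] at h0
  obtain ⟨k, hk⟩ := h0
  rw [zsmul_eq_mul, nsmul_eq_mul] at hk
  apply h ((k : ℚ) / m)
  have hm' : (m : ℝ) ≠ 0 := by exact_mod_cast hm.ne'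
  push_cast
  field_simp
  linarith

/-- The truncation of a real number to `[-1, 1]`. -/
private def cl (a : ℝ) : ℝ := max (-1) (min 1 a)

private lemma cl_abs (a : ℝ) : |cl a| ≤ 1 := by
  unfold cl
  rw [abs_le]
  exact ⟨le_max_left _ _, max_le (by norm_num) (min_le_left _ _)⟩

private lemma cl_lip (a b : ℝ) : |cl a - cl b| ≤ |a - b| := by
  unfold cl
  refine (abs_max_sub_max_le_max _ _ _ _).trans ?_
  rw [sub_self, abs_zero]
  refine max_le (abs_nonneg _) ((abs_min_sub_min_le_max _ _ _ _).trans ?_)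
  rw [sub_self, abs_zero]
  exact max_le (abs_nonneg _) le_rfl

private lemma cl_of_abs {a : ℝ} (h : |a| ≤ 1) : cl a = a := by
  unfold cl
  rw [abs_le] at h
  rw [min_eq_right h.2, max_eq_right h.1]

private lemma cl_meas : Measurable cl := by
  unfold cl
  fun_prop

private lemma modulus_freq {n : ℕ} (P : SimplePolygon n) (u : ℂ × Dir → ℝ)
    (hlim : liminf (fun ε : ℝ => P.modulus u ε / ENNReal.ofReal (ε * Real.log (1 / ε)))
      (𝓝[>] 0) = 0) {η : ℝ} (hη : 0 < η) :
    ∃ᶠ ε in 𝓝[>] (0 : ℝ), P.modulus u ε ≤ ENNReal.ofReal (η * (ε * -Real.log ε)) := by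
  have h1 : liminf (fun ε : ℝ => P.modulus u ε / ENNReal.ofReal (ε * Real.log (1 / ε)))
      (𝓝[>] 0) < ENNReal.ofReal η := by
    rw [hlim]
    exact ENNReal.ofReal_pos.2 hη
  have h2 := frequently_lt_of_liminf_lt (h := h1)
  have h3 : ∀ᶠ ε in 𝓝[>] (0 : ℝ), ε ∈ Set.Ioo (0 : ℝ) 1 := Ioo_mem_nhdsGT one_pos
  refine (h2.and_eventually h3).mono ?_
  rintro ε ⟨h4, h5⟩
  have h6 : 0 < ε * Real.log (1 / ε) := by
    refine mul_pos h5.1 (Real.log_pos ?_)
    rw [one_div]
    exact (one_lt_inv₀ h5.1).2 h5.2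
  have h7 : ε * -Real.log ε = ε * Real.log (1 / ε) := by
    rw [one_div, Real.log_inv]
  rw [h7, ENNReal.ofReal_mul hη.le]
  exact (ENNReal.div_le_iff (ENNReal.ofReal_pos.2 h6).ne' ENNReal.ofReal_ne_top).1 h4.le

private lemma Dv_le {n : ℕ} (hn : 3 ≤ n) (P : SimplePolygon n) {u : ℂ × Dir → ℝ}
    (hm : Measurable u) (N : ℕ) (ε : ℝ) :
    (tab hn P).Dv (fun x θ => cl (u (x, θ) / (N + 1))) ε ≤ P.modulus u ε := by
  have h1 : (tab hn P).Dv (fun x θ => cl (u (x, θ) / (N + 1))) ε ≤
      ∫⁻ p in {p : Dir × ℂ | p.2 ∈ P.Om}, ENNReal.ofReal |u (p.2, p.1 + ε) - u (p.2, p.1)| := by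
    unfold Helper90.BE.Tab.Dv
    refine lintegral_mono fun p => ?_
    rw [← ofReal_norm, Real.norm_eq_abs]
    refine ENNReal.ofReal_le_ofReal ((cl_lip _ _).trans ?_)
    rw [← sub_div, abs_div]
    refine div_le_self (abs_nonneg _) ?_
    rw [abs_of_pos (by positivity)]
    have : (0 : ℝ) ≤ N := Nat.cast_nonneg N
    linarith
  refine h1.trans (le_of_eq ?_)
  have hmp : MeasurePreserving (Prod.swap : Dir × ℂ → ℂ × Dir) volume volume :=
    Measure.measurePreserving_swap
  have hms : MeasurableSet (P.Om ×ˢ (Set.univ : Set Dir)) :=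
    P.isOpen.measurableSet.prod MeasurableSet.univ
  have hmf : Measurable (fun p : ℂ × Dir =>
      ENNReal.ofReal |u (p.1, p.2 + ε) - u (p.1, p.2)|) := by
    have : Measurable (fun p : ℂ × Dir => (p.1, p.2 + (ε : Dir))) :=
      measurable_fst.prodMk (measurable_snd.add_const _)
    exact ENNReal.measurable_ofReal.comp ((hm.comp this).sub hm).norm
  have h2 := hmp.setLIntegral_comp_preimage hms hmf
  unfold modulus
  rw [← h2]
  congr 2
  ext p
  simp

/-- **Theorem.** Let `P` be an irrational simple polygon and `u` a measurable function on its phase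
space which is constant along billiard trajectories. If the liminf for `ε → 0` of
`∫ |u (x, θ + ε) - u (x, θ)| dx dθ / (ε log (1 / ε))` is `0`, then `u` is almost everywhere
constant. -/
theorem result {n : ℕ} (hn : 3 ≤ n) (P : SimplePolygon n) (hP : P.Irrational)
    (u : ℂ × Dir → ℝ) (hm : Measurable u) (hu : P.Invariant u)
    (hlim : liminf (fun ε : ℝ => P.modulus u ε / ENNReal.ofReal (ε * Real.log (1 / ε)))
      (𝓝[>] 0) = 0) :
    ∃ c : ℝ, ∀ᵐ p ∂(volume.restrict (P.Om ×ˢ (Set.univ : Set Dir))), u p = c := by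
  obtain ⟨j, i, hij⟩ := hP
  have : NeZero n := ⟨by omega⟩
  have hinv := tab_inv hn P hu
  have key : ∀ N : ℕ, ∃ c : ℝ, ∀ᵐ p : Dir × ℂ, p.2 ∈ P.Om → cl (u (p.2, p.1) / (N + 1)) = c := by
    intro N
    have h1 : (tab hn P).Inv (fun x θ => cl (u (x, θ) / (N + 1))) :=
      { free := fun x θ t ht h => by
          have h2 : u (x + t • Helper90.BE.dir θ, θ) = u (x, θ) := hinv.free x θ t ht h
          show cl (u (x + t • Helper90.BE.dir θ, θ) / (N + 1)) = cl (u (x, θ) / (N + 1))
          rw [h2]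
        refl := fun i z θ s t hz hs ht h1 h2 => by
          exact congrArg (fun a => cl (a / (N + 1))) (hinv.refl i z θ s t hz hs ht h1 h2) }
    refine (tab hn P).ae_const P.conn.isPreconnected i j (irr_order hij) h1 ?_
      (fun x θ => cl_abs _) ?_
    · exact cl_meas.comp ((hm.comp (measurable_snd.prodMk measurable_fst)).div_const _)
    · intro η hη
      exact (modulus_freq P u hlim hη).mono fun ε h => (Dv_le hn P hm N ε).trans h
  choose c hc using key
  rw [← ae_all_iff] at hc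
  have h3 : ∃ c₀ : ℝ, ∀ᵐ p : Dir × ℂ, p.2 ∈ P.Om → u (p.2, p.1) = c₀ := by
    by_cases hex : ∃ p : Dir × ℂ, p.2 ∈ P.Om ∧ ∀ N : ℕ, cl (u (p.2, p.1) / (N + 1)) = c N
    · obtain ⟨p₀, hp₀, hq₀⟩ := hex
      refine ⟨u (p₀.2, p₀.1), ?_⟩
      filter_upwards [hc] with p hp hpO
      obtain ⟨N, hN⟩ := exists_nat_ge (max |u (p.2, p.1)| |u (p₀.2, p₀.1)|)
      have hN1 : (0 : ℝ) < N + 1 := by positivity
      have h4 : ∀ a : ℝ, |a| ≤ N → cl (a / (N + 1)) = a / (N + 1) := by
        intro a ha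
        apply cl_of_abs
        rw [abs_div, abs_of_pos hN1, div_le_one hN1]
        linarith
      have h5 := hp N hpO
      have h6 := hq₀ N
      rw [h4 _ ((le_max_left _ _).trans hN)] at h5
      rw [h4 _ ((le_max_right _ _).trans hN)] at h6
      have h7 := h5.trans h6.symm
      exact (div_left_inj' hN1.ne').1 h7
    · refine ⟨0, ?_⟩
      filter_upwards [hc] with p hp hpO
      exact absurd ⟨p, hpO, fun N => hp N hpO⟩ hex
  obtain ⟨c₀, hc₀⟩ := h3
  refine ⟨c₀, ?_⟩
  rw [ae_restrict_iff' (P.isOpen.measurableSet.prod MeasurableSet.univ)]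
  have hmp : MeasurePreserving (Prod.swap : ℂ × Dir → Dir × ℂ) volume volume :=
    Measure.measurePreserving_swap
  filter_upwards [hmp.quasiMeasurePreserving.ae hc₀] with p hp hpO
  exact hp hpO.1

end Pool.Agent.Results.MP_a579f0_an.InvariantModulus
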